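import Pool.Agent.Lib.MP_2c0425_lc.Final

namespace Pool.Agent.Results.MP_2c0425_lc.DeterministicBelowTwoThirds

/-- A deterministic online colouring algorithm: from the ordered graph on the vertices
`0, …, t` revealed so far it computes the colour of the vertex `t`. -/
def OnlineAlg : Type := (t : ℕ) → SimpleGraph (Fin (t + 1)) → ℕ

/-- The ordered graph revealed up to and including the vertex `v`. -/
def revealed {n : ℕ} (G : SimpleGraph (Fin n)) (v : Fin n) : SimpleGraph (Fin (v.val + 1)) :=
  G.comap (Fin.castLE v.isLt)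

/-- The colour that the algorithm `A` gives to the vertex `v` of the graph `G`, whose vertices
are presented in the order `0, 1, …, n - 1`. -/
def colour (A : OnlineAlg) {n : ℕ} (G : SimpleGraph (Fin n)) (v : Fin n) : ℕ :=
  A v.val (revealed G v)

/-- The algorithm always produces proper colourings, on all graphs. -/
def Valid (A : OnlineAlg) : Prop :=
  ∀ (n : ℕ) (G : SimpleGraph (Fin n)) (u v : Fin n), G.Adj u v → colour A G u ≠ colour A G v

/-- The number of different colours that `A` uses on `G`. -/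
def numColours (A : OnlineAlg) {n : ℕ} (G : SimpleGraph (Fin n)) : ℕ :=
  (Finset.univ.image (colour A G)).card

open Pool.Agent.Lib.MP_2c0425_lc in
/-- There are `ε > 0` and a deterministic online algorithm that colours every 3-colourable
graph on `n` vertices, in every order of presentation, with `O(n ^ (2 / 3 - ε))` colours. -/
theorem result : ∃ ε : ℝ, 0 < ε ∧ ∃ A : OnlineAlg, Valid A ∧ ∃ C : ℝ,
    ∀ (n : ℕ) (G : SimpleGraph (Fin n)), G.Colorable 3 →
      (numColours A G : ℝ) ≤ C * (n : ℝ) ^ (2 / 3 - ε) := by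
  classical
  obtain ⟨ε, hε, _, C, alg, hloc, hgood⟩ := main_bound
  let W : SimpleGraph ℕ → ℕ → ℕ := fun g t =>
    if ∃ u < t, g.Adj t u ∧ alg g u = alg g t then 2 * t + 1 else 2 * alg g t
  have hW : ∀ g g' t, Agr g g' (t + 1) → W g t = W g' t := by
    intro g g' t h
    have h1 : alg g t = alg g' t := hloc g g' t h
    have h2 : (∃ u < t, g.Adj t u ∧ alg g u = alg g t) ↔
        ∃ u < t, g'.Adj t u ∧ alg g' u = alg g' t := by
      constructor
      · rintro ⟨u, hu, h3, h4⟩
        exact ⟨u, hu, (h t (by omega) u (by omega)).1 h3, by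
          rw [← h1, ← hloc g g' u (h.mono (by omega)), h4]⟩
      · rintro ⟨u, hu, h3, h4⟩
        exact ⟨u, hu, (h t (by omega) u (by omega)).2 h3, by
          rw [h1, hloc g g' u (h.mono (by omega)), h4]⟩
    show (if ∃ u < t, g.Adj t u ∧ alg g u = alg g t then 2 * t + 1 else 2 * alg g t) =
      (if ∃ u < t, g'.Adj t u ∧ alg g' u = alg g' t then 2 * t + 1 else 2 * alg g' t)
    by_cases hc : ∃ u < t, g'.Adj t u ∧ alg g' u = alg g' t
    · rw [if_pos (h2.2 hc), if_pos hc]
    · rw [if_neg (fun h => hc (h2.1 h)), if_neg hc, h1]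
  have hWv : ∀ g a b, a < b → g.Adj a b → W g a ≠ W g b := by
    intro g a b hab hadj
    show (if ∃ u < a, g.Adj a u ∧ alg g u = alg g a then 2 * a + 1 else 2 * alg g a) ≠
      (if ∃ u < b, g.Adj b u ∧ alg g u = alg g b then 2 * b + 1 else 2 * alg g b)
    split_ifs with h1 h2 h2
    · omega
    · omega
    · omega
    · intro h3
      exact h2 ⟨a, hab, hadj.symm, by omega⟩
  let toN : ∀ {m : ℕ}, SimpleGraph (Fin m) → SimpleGraph ℕ := fun {m} G =>
    G.map Fin.valEmbedding
  have htoN : ∀ {m : ℕ} (G : SimpleGraph (Fin m)) (x y : Fin m),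
      (toN G).Adj x.val y.val ↔ G.Adj x y := by
    intro m G x y
    exact SimpleGraph.map_adj_apply (f := Fin.valEmbedding)
  let A : OnlineAlg := fun t g => W (toN g) t
  have hcol : ∀ (n : ℕ) (G : SimpleGraph (Fin n)) (v : Fin n),
      colour A G v = W (toN G) v.val := by
    intro n G v
    show W (toN (revealed G v)) v.val = W (toN G) v.val
    apply hW
    intro a ha b hb
    have h1 := htoN (revealed G v) ⟨a, ha⟩ ⟨b, hb⟩
    have hv := v.isLt
    have h2 := htoN G ⟨a, by omega⟩ ⟨b, by omega⟩
    exact h1.trans h2.symm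
  refine ⟨ε, hε, A, ?_, C, ?_⟩
  · intro n G u v huv
    rw [hcol, hcol]
    have h1 : (toN G).Adj u.val v.val := (htoN G u v).2 huv
    rcases lt_trichotomy u.val v.val with h2 | h2 | h2
    · exact hWv _ _ _ h2 h1
    · rw [h2] at h1
      exact absurd h1 ((toN G).loopless.irrefl _)
    · exact (hWv _ _ _ h2 h1.symm).symm
  · intro n G hG
    obtain ⟨F⟩ := hG
    have hc3 : Col3 (toN G) n := by
      refine ⟨fun x => if hx : x < n then F ⟨x, hx⟩ else 0, ?_⟩
      rintro a b ⟨h1, h2, h3⟩
      rw [Finset.mem_range] at h2 h3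
      have h4 := (htoN G ⟨a, h2⟩ ⟨b, h3⟩).1 h1
      have h5 := F.valid h4
      simpa [h2, h3] using h5
    obtain ⟨hp, hb⟩ := hgood (toN G) n hc3
    refine le_trans ?_ hb
    have h1 : Finset.univ.image (colour A G) ⊆
        ((Finset.range n).image (alg (toN G))).image (fun x => 2 * x) := by
      intro y hy
      obtain ⟨v, _, rfl⟩ := Finset.mem_image.1 hy
      rw [hcol]
      have h2 : ¬ ∃ u < v.val, (toN G).Adj v.val u ∧ alg (toN G) u = alg (toN G) v.val := by
        rintro ⟨u, hu, h3, h4⟩
        exact hp v.val v.isLt u (by have := v.isLt; omega) h3 h4.symm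
      have h3 : W (toN G) v.val = 2 * alg (toN G) v.val := if_neg h2
      rw [h3]
      exact Finset.mem_image.2 ⟨_, Finset.mem_image.2 ⟨v.val, Finset.mem_range.2 v.isLt, rfl⟩,
        rfl⟩
    exact_mod_cast (Finset.card_le_card h1).trans Finset.card_image_le

end Pool.Agent.Results.MP_2c0425_lc.DeterministicBelowTwoThirds
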